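import Mathlib

namespace Pool.Agent.Results.MP_b8aaf5_co.Fails

def Move (s t : Multiset ℕ) : Prop :=
  (∃ a ∈ s, t = ((a - 1) ::ₘ s.erase a).filter (0 < ·)) ∨
    (s ≠ 0 ∧ t = (s.map (· - 1)).filter (0 < ·))

mutual
inductive IsP : Multiset ℕ → Prop
  | mk (s : Multiset ℕ) : (∀ t, Move s t → IsN t) → IsP s
inductive IsN : Multiset ℕ → Prop
  | mk (s t : Multiset ℕ) : Move s t → IsP t → IsN s
end

def InS (k j : ℕ) : Prop :=
  if Odd k then Even j else (Even j ∧ 2 * j < k) ∨ (Odd j ∧ k < 2 * j)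

def tab : ℕ := 0xd557fffffaabff55feafd7b555fffff557faafd5eb2aafffff5556aad5b55557ffffffffd55feabf57ad5556aad5aabf57ad556ad57ad56ad5fffffeaaffd57fabf5efffffd55feabf57adffffeaaad55ab6abffffffffffeabf57ad56aad5bfabd6ad5beb5bbffeaaffd57fabf5effeaaff55fabd6ffd555aab56fffffffffaa554a9555ab54a955a95555ffaaff57ebd557faafd5eb5555aab56ffffffffeaf5ab56fad6effeabfd5faf7fd57eaf5aad55ab7ffffffffebdfeeabfd5faf557eaf5aafd7aaf5bff5bbfd5faf7f57adfaf7d6f76afd7aaf5abd5abf5efadeed7ab57bb5aaafffffaabfd57eaf59557ffffaaab556adaaaabffffffffeaaff55fabd6aaab556ad55fabd6aab56abd6ab56afffffaabfd57eaf5bffffd555aab56d57ffffffffffd57eaf5aad55ab7f57ad5ab7d6b77ff557faafd5eb7feaaad55ab7ffffffffd52aa54aaad5aa54aad4a955feabf57ad5556aad5bffffffffabd6ad5beb5bbfeabf57ad56aad5bfffffffff5eff6abf57ad57ebd57adffaddfabd6fd7beb7baaf5abd5abd6f756ad2aafffff5556aad5b55557ffffffffd55feabf57ad5556aad5aabf57ad556ad57ad56ad5ffffeaaad55ab6ab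ffffffffffeabf57ad56aad5bfabd6ad5beb5bbff55feafd7bfffffffff54aa952aab56a952ab52aaaab556adffffffffd5eb56adf5addab556adffffffd7bfbfbfabf5eabd6af56afaf7eb77b5ead5ded6aaaafffffffffaabfd57eaf5aaaad55ab557eaf5aaad5aaf5aad5aaab5556aad5bfeabf57ad56aad5bfabd6ad5beb5bbffffffffea9552a5556ad52a556a55ffffffeaa952ad5aa95abfd7effaf7f7f7eaf5abd5abd6f756ad2abfd57eaf5aaaad55ab557eaf5aaad5aaf5aad5abfd57eaf5aad55ab7f57ad5ab7d6b7552aa54aaad5aa54aad4abf57adfaf7d6f77ffffffffd7ab55bb5aaab556ad55fabd6aab56abd6ab56aab556adfd5eb56adf5addaab56abd6ab56aad5beb5bbffffffded57eaf5aaad5aaf5aad5abf57ad5ab7d6b755eb55ab57ad6eadd6000000000000000000000000000000000000000000000000000000000000000aaaaab557feabfd5faf5552aaaaff55fabd6aaaab55fd5faf6aaff55fabd6aaab556ad55fabd6aab56abd6ab56aaab557feabfd5faf555557faafd5eb556abfabf5effd57eaf5aad55ab7f57ad5ab7d6b76aaffd57fabf5eaabfd57eaf5957fabf5ed57eaf5bffffeaf5bff5bbff55feafd7bfeabf57adfd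5faf7556adfffea95ab55feafd7aabf57adfffff52a556a55feafd7bfabd6fd7beb5bb57ebd57ad5ead5faf7d6f76bd5abddaaaa55555feabf57ad55556abfabf5ed55feabf57ad5556aad5aabf57ad556ad57ad56ad4aaaabfd57eaf5aab55fd5faf7feabf57ad56aad5bfabd6ad5beb5baaaff55fabd655feafd7b55fabd6fffffabd6ffd6eff55fabd6feafd7baab56ffff54ad555fabd6fffffa952ab52afd5eb7ebdf5add57ad5ead5eb7bab56aaaaad57f57ebdaabfd57eaf5aaaad55ab557eaf5aaad5aaf5aad5aaab55fd5faf7feabf57ad56aad5bfabd6ad5beb5baabfd5faf6abf57adfffff57adffaddfd5faf7556adfffea95abfffff52a556a55faf7d6f76ad5abddaaabfd57eaf5aaaad55ab557eaf5aaad5aaf5aad5abfd57eaf5aad55ab7f57ad5ab7d6b7557eaf5bffffeaf5bff5b95faf75fbd7bbdd4a955a957adeead5aaaab556ad55fabd6aab56abd6ab56aab556adfd5eb56adf5addabf5eabd6af56aad5aa95ab56a55eeb557eaf5aaad5aaf5aad5abf57ad5ab7d6b755eb55ab57ad6ea55aaab56abd6ab56aad5beb5bb56ad56ed40000000000000000000000000000000d55ffffeabfd5faf6aaffffaafd5eb2abfffd55ab6aaafffffd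57eaf5aaad5aaf5aad5abffffd57fabf5effffd57eaf5bfffd55ab6afffffff57ad5ab7d6b77ff55feafd7bfeabf57adfeaad5bfffff52a556a5555feafd7aabf57ad556adffffeb5bbfeafd7bfabd6ad5bffff757ebd57ad5eaddfaf7d6f76bd5abddad55ffff55fabd6557fffaab56d555fffffaafd5eb555ab55eb55ab57fffd57eaf5bfffd55ab6afffffff57ad5ab7d6b77fd57eaf5bfd55ab7ffffea54aad4a957eaf5aaad5bffffd6b77f57ad5ab7fffed5eb57ab77adeead5a557fffaab56d555fffffaafd5eb555ab55eb55ab57fffaab56d5ffffffeaf5ab56fad6eff57ebdfffffd4a955a95555ab7ffffad6ed6adfffbfaf56aef6b5557ffffeabf57ad556ad57ad56ad556aad5bfabd6ad5beb5bbfffff52a556a55fffd52b57efefd6ad2afd5eb555ab55eb55ab57eaf5ab56fad6ea952ab52af5bddffeb556ad57ad56ad55ab7d6b76ad5aaddfabd6ab56af5add5ab40000000000000155556abfd5faf554aaabf57ad5556afaf6abf57ad556ad57ad56ad555aaff57ebd5555fabd6ab57d7bfd5eb56adf5addaaff57ebd55fabd657ebdabd6ffd6eff57ebdfd5eb7d7bab7f5abf5eabd6ffd2afd7beb7bb5ead5eed554aaabf57ad5556afaf6abf5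7ad556ad57ad56ad4aaabf57ad56afaf7fabd6ad5beb5baabf57acafd7b57adffaddfabd6faf756feaaf5bff4abd6f756ad5555abebdaafd5eb555ab55eb55ab555abebdfeaf5ab56fad6eabf5ed5eb7feb77d7bab7f5ffd2af76aabf57ad556ad57ad56ad5fabd6ad5beb5baaf5bff5b97bbdd2ad555ab55eb55ab556adf5addaf56ab56aaf5aad5abd6b756ad55ab55bb5000006abfffd5faf6abffeaf5957ffab6aaffeaf5aad5abfffd5faf7ffeaf5bffd5b5fffd6b77fd5faf7f57adfab7ff4aaafd7aaf5aadff7f5efad6fd7ab57bb5aafffabd655ffeadaabffabd6ab56afffabd6fff56d7fff5addfd5eb7eadffd2a57ad56ffbeb5beb56957ffab6aaffeaf5aad5abffd5b5fffd6b77ebdffe9555bfedbf5aabffabd6ab56aad5beb5bbffa55faf95eb55ab57ad6ea55bab56ab76ab5680aaab57ebd54aabd6aab5dabd6ab56aab57ebd555eb56bbf5addabf5eabd65ed6efd7beb7775eaddeed552aaf5aaad76af5aad5a9557ad5aefd6b755eb2f6b77adddaddaaab5dabd6ab56aad77eb5babdaddddf55eb55ab57ad6eadceab56ab76ab56aad5ffebdabfeb2bfdabd6afff5effd6ff6fdfd7beb7bd5ead7eed6affacaff6af5abfeb7fb7efadef2d7a57fb57ad5fedfbdf5eaf5aaddead5aaaaad7aa55aad5aab5eaad6ed7ab37bb552ad56ad4ab5bab36aad5aadd6ad5aab5fed7cbd7fbf7fbb5af97afbf4bd7eaab52ab56a952aadebf554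

def rk (a b c d e f : ℕ) : ℕ :=
  let p := a + b
  let q := p + c
  let r := q + d
  let s := r + e
  let t := s + f
  a + (p + 1) * p / 2 + (q + 2) * (q + 1) * q / 6 + (r + 3) * (r + 2) * (r + 1) * r / 24 +
    (s + 4) * (s + 3) * (s + 2) * (s + 1) * s / 120 +
    (t + 5) * (t + 4) * (t + 3) * (t + 2) * (t + 1) * t / 720

def w (a b c d e f : ℕ) : Bool := Nat.testBit tab (rk a b c d e f)

def nxt (a b c d e f : ℕ) : Bool :=
  (decide (0 < a + b + c + d + e + f) && !w b c d e f 0) ||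
  (decide (0 < a) && !w (a - 1) b c d e f) || (decide (0 < b) && !w (a + 1) (b - 1) c d e f) ||
  (decide (0 < c) && !w a (b + 1) (c - 1) d e f) || (decide (0 < d) && !w a b (c + 1) (d - 1) e f) ||
  (decide (0 < e) && !w a b c (d + 1) (e - 1) f) || (decide (0 < f) && !w a b c d (e + 1) (f - 1))

def chk (f : ℕ) : Bool :=
  (List.range (13 - f)).all fun e => (List.range (13 - f - e)).all fun d =>
    (List.range (13 - f - e - d)).all fun c => (List.range (13 - f - e - d - c)).all fun b =>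
      (List.range (13 - f - e - d - c - b)).all fun a => w a b c d e f == nxt a b c d e f

lemma chk0 : chk 0 = true := by decide +kernel
lemma chk1 : chk 1 = true := by decide +kernel
lemma chk2 : chk 2 = true := by decide +kernel
lemma chk3 : chk 3 = true := by decide +kernel
lemma chk4 : chk 4 = true := by decide +kernel
lemma chk5 : chk 5 = true := by decide +kernel
lemma chk6 : chk 6 = true := by decide +kernel

lemma w_eq (a b c d e f : ℕ) (h : a + b + c + d + e + f ≤ 12) (hf : f ≤ 6) :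
    w a b c d e f = nxt a b c d e f := by
  have h0 : chk f = true := by
    interval_cases f
    exacts [chk0, chk1, chk2, chk3, chk4, chk5, chk6]
  simp only [chk, List.all_eq_true, List.mem_range, beq_iff_eq] at h0
  exact h0 e (by omega) d (by omega) c (by omega) b (by omega) a (by omega)

open Multiset

def M (a b c d e f : ℕ) : Multiset ℕ :=
  replicate a 1 + replicate b 2 + replicate c 3 + replicate d 4 + replicate e 5 + replicate f 6

lemma filt (n x : ℕ) : (replicate n x).filter (0 < ·) = if 0 < x then replicate n x else 0 := by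
  split_ifs with h
  · exact filter_eq_self.mpr fun y hy => eq_of_mem_replicate hy ▸ h
  · exact filter_eq_nil.mpr fun y hy => eq_of_mem_replicate hy ▸ h

lemma allm (a b c d e f : ℕ) :
    ((M a b c d e f).map (· - 1)).filter (0 < ·) = M b c d e f 0 := by
  simp [M, filt]

lemma uni (s t : Multiset ℕ) (x : ℕ) (h : ∀ y ∈ t, 0 < y) (e : s = x ::ₘ t) :
    ((x - 1) ::ₘ s.erase x).filter (0 < ·) = if 0 < x - 1 then (x - 1) ::ₘ t else t := by
  rw [e, erase_cons_head, filter_cons, filter_eq_self.mpr h]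
  split_ifs <;> simp

lemma posM (a b c d e f : ℕ) : ∀ y ∈ M a b c d e f, 0 < y := by
  intro y hy
  simp only [M, mem_add, mem_replicate] at hy
  omega

lemma c1 (a b c d e f : ℕ) : M (a + 1) b c d e f = 1 ::ₘ M a b c d e f := by
  simp [M, replicate_succ]
lemma c2 (a b c d e f : ℕ) : M a (b + 1) c d e f = 2 ::ₘ M a b c d e f := by
  simp [M, replicate_succ]
lemma c3 (a b c d e f : ℕ) : M a b (c + 1) d e f = 3 ::ₘ M a b c d e f := by
  simp [M, replicate_succ]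
lemma c4 (a b c d e f : ℕ) : M a b c (d + 1) e f = 4 ::ₘ M a b c d e f := by
  simp [M, replicate_succ]
lemma c5 (a b c d e f : ℕ) : M a b c d (e + 1) f = 5 ::ₘ M a b c d e f := by
  simp [M, replicate_succ]
lemma c6 (a b c d e f : ℕ) : M a b c d e (f + 1) = 6 ::ₘ M a b c d e f := by
  simp [M, replicate_succ]

lemma move_iff (a b c d e f : ℕ) (t : Multiset ℕ) : Move (M a b c d e f) t ↔
    (0 < a + b + c + d + e + f ∧ t = M b c d e f 0) ∨
    (0 < a ∧ t = M (a - 1) b c d e f) ∨ (0 < b ∧ t = M (a + 1) (b - 1) c d e f) ∨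
    (0 < c ∧ t = M a (b + 1) (c - 1) d e f) ∨ (0 < d ∧ t = M a b (c + 1) (d - 1) e f) ∨
    (0 < e ∧ t = M a b c (d + 1) (e - 1) f) ∨ (0 < f ∧ t = M a b c d (e + 1) (f - 1)) := by
  have hz : M a b c d e f ≠ 0 ↔ 0 < a + b + c + d + e + f := by
    rw [Ne, ← card_eq_zero]
    simp only [M, card_add, card_replicate]
    omega
  have hm : ∀ x, x ∈ M a b c d e f ↔ (0 < a ∧ x = 1) ∨ (0 < b ∧ x = 2) ∨ (0 < c ∧ x = 3) ∨
      (0 < d ∧ x = 4) ∨ (0 < e ∧ x = 5) ∨ (0 < f ∧ x = 6) := by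
    intro x
    simp only [M, mem_add, mem_replicate]
    omega
  have u1 : 0 < a → ((1 - 1) ::ₘ (M a b c d e f).erase 1).filter (0 < ·) =
      M (a - 1) b c d e f := fun h => by
    rw [uni _ _ 1 (posM (a - 1) b c d e f) (by rw [← c1, Nat.sub_add_cancel h])]
    rfl
  have u2 : 0 < b → ((2 - 1) ::ₘ (M a b c d e f).erase 2).filter (0 < ·) =
      M (a + 1) (b - 1) c d e f := fun h => by
    rw [uni _ _ 2 (posM a (b - 1) c d e f) (by rw [← c2, Nat.sub_add_cancel h]), c1]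
    rfl
  have u3 : 0 < c → ((3 - 1) ::ₘ (M a b c d e f).erase 3).filter (0 < ·) =
      M a (b + 1) (c - 1) d e f := fun h => by
    rw [uni _ _ 3 (posM a b (c - 1) d e f) (by rw [← c3, Nat.sub_add_cancel h]), c2]
    rfl
  have u4 : 0 < d → ((4 - 1) ::ₘ (M a b c d e f).erase 4).filter (0 < ·) =
      M a b (c + 1) (d - 1) e f := fun h => by
    rw [uni _ _ 4 (posM a b c (d - 1) e f) (by rw [← c4, Nat.sub_add_cancel h]), c3]
    rfl
  have u5 : 0 < e → ((5 - 1) ::ₘ (M a b c d e f).erase 5).filter (0 < ·) =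
      M a b c (d + 1) (e - 1) f := fun h => by
    rw [uni _ _ 5 (posM a b c d (e - 1) f) (by rw [← c5, Nat.sub_add_cancel h]), c4]
    rfl
  have u6 : 0 < f → ((6 - 1) ::ₘ (M a b c d e f).erase 6).filter (0 < ·) =
      M a b c d (e + 1) (f - 1) := fun h => by
    rw [uni _ _ 6 (posM a b c d e (f - 1)) (by rw [← c6, Nat.sub_add_cancel h]), c5]
    rfl
  unfold Move
  rw [hz, allm]
  constructor
  · rintro (⟨x, hx, rfl⟩ | h)
    · rcases (hm x).mp hx with ⟨h, rfl⟩ | ⟨h, rfl⟩ | ⟨h, rfl⟩ | ⟨h, rfl⟩ | ⟨h, rfl⟩ | ⟨h, rfl⟩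
      · exact Or.inr (Or.inl ⟨h, u1 h⟩)
      · exact Or.inr (Or.inr (Or.inl ⟨h, u2 h⟩))
      · exact Or.inr (Or.inr (Or.inr (Or.inl ⟨h, u3 h⟩)))
      · exact Or.inr (Or.inr (Or.inr (Or.inr (Or.inl ⟨h, u4 h⟩))))
      · exact Or.inr (Or.inr (Or.inr (Or.inr (Or.inr (Or.inl ⟨h, u5 h⟩)))))
      · exact Or.inr (Or.inr (Or.inr (Or.inr (Or.inr (Or.inr ⟨h, u6 h⟩)))))
    · exact Or.inl h
  · rintro (h | ⟨h, rfl⟩ | ⟨h, rfl⟩ | ⟨h, rfl⟩ | ⟨h, rfl⟩ | ⟨h, rfl⟩ | ⟨h, rfl⟩)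
    · exact Or.inr h
    · exact Or.inl ⟨1, (hm 1).mpr (by omega), (u1 h).symm⟩
    · exact Or.inl ⟨2, (hm 2).mpr (by omega), (u2 h).symm⟩
    · exact Or.inl ⟨3, (hm 3).mpr (by omega), (u3 h).symm⟩
    · exact Or.inl ⟨4, (hm 4).mpr (by omega), (u4 h).symm⟩
    · exact Or.inl ⟨5, (hm 5).mpr (by omega), (u5 h).symm⟩
    · exact Or.inl ⟨6, (hm 6).mpr (by omega), (u6 h).symm⟩

lemma sound (n : ℕ) : ∀ a b c d e f, a + 2 * b + 3 * c + 4 * d + 5 * e + 6 * f < n →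
    a + b + c + d + e + f ≤ 12 → f ≤ 6 →
      (w a b c d e f = false → IsP (M a b c d e f)) ∧
        (w a b c d e f = true → IsN (M a b c d e f)) := by
  induction n with
  | zero => intro a b c d e f h; omega
  | succ n ih =>
    intro a b c d e f h1 h2 h3
    rw [w_eq a b c d e f h2 h3]
    constructor
    · intro h
      simp only [nxt, Bool.or_eq_false_iff, Bool.and_eq_false_imp, decide_eq_true_eq,
        Bool.not_eq_false'] at h
      obtain ⟨⟨⟨⟨⟨⟨g0, g1⟩, g2⟩, g3⟩, g4⟩, g5⟩, g6⟩ := h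
      refine IsP.mk _ fun t ht => ?_
      rcases (move_iff a b c d e f t).mp ht with
        ⟨h, rfl⟩ | ⟨h, rfl⟩ | ⟨h, rfl⟩ | ⟨h, rfl⟩ | ⟨h, rfl⟩ | ⟨h, rfl⟩ | ⟨h, rfl⟩
      · exact (ih _ _ _ _ _ _ (by omega) (by omega) (by omega)).2 (g0 h)
      · exact (ih _ _ _ _ _ _ (by omega) (by omega) (by omega)).2 (g1 h)
      · exact (ih _ _ _ _ _ _ (by omega) (by omega) (by omega)).2 (g2 h)
      · exact (ih _ _ _ _ _ _ (by omega) (by omega) (by omega)).2 (g3 h)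
      · exact (ih _ _ _ _ _ _ (by omega) (by omega) (by omega)).2 (g4 h)
      · exact (ih _ _ _ _ _ _ (by omega) (by omega) (by omega)).2 (g5 h)
      · exact (ih _ _ _ _ _ _ (by omega) (by omega) (by omega)).2 (g6 h)
    · intro h
      simp only [nxt, Bool.or_eq_true, Bool.and_eq_true, decide_eq_true_eq,
        Bool.not_eq_true', or_assoc] at h
      rcases h with ⟨h, g⟩ | ⟨h, g⟩ | ⟨h, g⟩ | ⟨h, g⟩ | ⟨h, g⟩ | ⟨h, g⟩ | ⟨h, g⟩ <;>
        refine IsN.mk _ _ ((move_iff a b c d e f _).mpr ?_)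
          ((ih _ _ _ _ _ _ (by omega) (by omega) (by omega)).1 g) <;> simp [h]

theorem result : ¬ ∀ k : ℕ, 3 ≤ k → ∀ s : Multiset ℕ, card s = k →
    (∀ a ∈ s, (k + 2) / 3 < a) → (IsP s ↔ InS k (countP Odd s)) := by
  intro h
  have h1 := (h 12 (by norm_num) (M 0 0 0 0 6 6) (by decide) (by decide)).mp
    ((sound 100 0 0 0 0 6 6 (by norm_num) (by norm_num) (by norm_num)).1 (by decide +kernel))
  have h2 : countP Odd (M 0 0 0 0 6 6) = 6 := by decide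
  rw [h2, InS, if_neg (by decide)] at h1
  revert h1
  decide

end Pool.Agent.Results.MP_b8aaf5_co.Fails
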